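import Pool.Agent.L7h1.AS.Stm

set_option autoImplicit false

/-!
# Project AS, part C2B: the twin prime constant is positive and at most its partial products

The convergence and the comparison follow helper72 (`Pool.Agent.L7h72.HW.Ser`).
-/

namespace Pool.Agent.L7h54.AS

open Finset Pool.Agent.L7h1.AS

lemma fac01 {p : ℕ} (hp : 2 < p) : 0 < 1 - 1 / ((p : ℝ) - 1) ^ 2 ∧ 1 - 1 / ((p : ℝ) - 1) ^ 2 ≤ 1 := by
  have h : (3 : ℝ) ≤ p := by exact_mod_cast hp
  have h1 : (1 : ℝ) < ((p : ℝ) - 1) ^ 2 := by nlinarith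
  have h2 : 1 / ((p : ℝ) - 1) ^ 2 < 1 := by rw [div_lt_one (by linarith)]; exact h1
  have h3 : 0 ≤ 1 / ((p : ℝ) - 1) ^ 2 := by positivity
  constructor <;> linarith

lemma sum_C2 : Summable (fun p : {p : ℕ // p.Prime ∧ 2 < p} => -(1 / (((p.1 : ℕ) : ℝ) - 1) ^ 2)) := by
  apply Summable.neg
  have h2 : Summable (fun n : ℕ => 4 * (1 / (n : ℝ) ^ 2)) :=
    (Real.summable_one_div_nat_pow.2 (by norm_num)).mul_left 4
  have h3 := h2.comp_injective (Subtype.val_injective (p := fun p : ℕ => p.Prime ∧ 2 < p))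
  refine Summable.of_nonneg_of_le (fun p => by positivity) (fun p => ?_) h3
  have hp : (3 : ℝ) ≤ (p.1 : ℝ) := by exact_mod_cast p.2.2
  simp only [Function.comp]
  rw [mul_one_div, div_le_div_iff₀ (by nlinarith) (by positivity)]
  nlinarith

lemma mult_C2 : Multipliable (fun p : {p : ℕ // p.Prime ∧ 2 < p} =>
    (1 - 1 / (((p.1 : ℕ) : ℝ) - 1) ^ 2)) := by
  have h4 := Real.multipliable_one_add_of_summable sum_C2
  refine h4.congr (fun p => ?_)
  ring

lemma C2_pos : 0 < C2 := by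
  unfold C2
  have h1 := Real.rexp_tsum_eq_tprod (f := fun p : {p : ℕ // p.Prime ∧ 2 < p} =>
    (1 - 1 / (((p.1 : ℕ) : ℝ) - 1) ^ 2)) (fun p => (fac01 p.2.2).1) ?_
  · rw [← h1]; exact Real.exp_pos _
  · have h2 := Real.summable_log_one_add_of_summable sum_C2
    refine h2.congr (fun p => ?_)
    congr 1

theorem s_C2B : S_C2B := by
  refine ⟨C2_pos, fun z => ?_⟩
  obtain ⟨s, hs⟩ : ∃ s, s = Finset.subtype (fun p : ℕ => p.Prime ∧ 2 < p) (range (z + 1)) := ⟨_, rfl⟩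
  have e : ∏ p ∈ s, (1 - 1 / (((p.1 : ℕ) : ℝ) - 1) ^ 2) =
      ∏ p ∈ (range (z + 1)).filter (fun p : ℕ => p.Prime ∧ 2 < p), (1 - 1 / ((p : ℝ) - 1) ^ 2) := by
    rw [hs, Finset.prod_subtype_eq_prod_filter (s := range (z + 1))
      (p := fun p : ℕ => p.Prime ∧ 2 < p) (f := fun p : ℕ => (1 - 1 / ((p : ℝ) - 1) ^ 2))]
  rw [← e]
  have h := mult_C2.hasProd
  refine le_of_tendsto h ?_
  filter_upwards [Filter.eventually_ge_atTop s] with t ht
  rw [← prod_sdiff ht]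
  apply mul_le_of_le_one_left
  · exact prod_nonneg fun p _ => (fac01 p.2.2).1.le
  · exact prod_le_one (fun p _ => (fac01 p.2.2).1.le) (fun p _ => (fac01 p.2.2).2)

end Pool.Agent.L7h54.AS
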