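import Pool.Agent.L7h1.AS.Stm

set_option autoImplicit false

/-!
# Project AS, part SG1: the singular series and the finite product
-/

namespace Pool.Agent.L7h54.AS

open Finset Pool.Agent.L7h1.AS

lemma totient_prod_primes (s : Finset ℕ) (hs : ∀ p ∈ s, p.Prime) :
    (Nat.totient (∏ p ∈ s, p) : ℝ) = ∏ p ∈ s, ((p : ℝ) - 1) := by
  classical
  induction s using Finset.induction_on with
  | empty => simp
  | insert a s ha ih =>
    have hp : a.Prime := hs a (mem_insert_self _ _)
    have hs' : ∀ p ∈ s, p.Prime := fun p hp => hs p (mem_insert_of_mem hp)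
    rw [prod_insert ha, prod_insert ha, Nat.totient_mul, Nat.totient_prime hp]
    · push_cast [Nat.cast_sub hp.one_le]
      rw [ih hs']
    · apply Nat.Coprime.prod_right
      intro q hq
      rw [Nat.coprime_primes hp (hs' q hq)]
      rintro rfl
      exact ha hq

theorem s_SG1 (h : S_C2B) : S_SG1 := by
  classical
  intro z d hz hd
  obtain ⟨hC0, hC⟩ := h
  set T := (range (z + 1)).filter Nat.Prime with hT
  have hTp : ∀ p ∈ T, p.Prime := fun p hp => (mem_filter.1 hp).2
  have hprim : (primorial z : ℝ) = ∏ p ∈ T, (p : ℝ) := by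
    unfold primorial
    push_cast
    rfl
  have htot : (Nat.totient (primorial z) : ℝ) = ∏ p ∈ T, ((p : ℝ) - 1) := by
    have : primorial z = ∏ p ∈ T, p := rfl
    rw [this]
    exact totient_prod_primes T hTp
  have hquot : prodR z d * ((primorial z : ℝ) / (Nat.totient (primorial z) : ℝ) ^ 2) =
      ∏ p ∈ T, (((p : ℝ) - (if p ∣ d then 1 else 2)) * (p / ((p : ℝ) - 1) ^ 2)) := by
    rw [hprim, htot, prod_mul_distrib, prod_div_distrib, prod_pow]
    rfl
  have htail : 0 ≤ ∏ p ∈ d.primeFactors.filter (fun p => z < p), (((p : ℝ) - 1) / ((p : ℝ) - 2)) := by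
    apply prod_nonneg
    intro p hp
    have h3 : (3 : ℝ) ≤ p := by
      have := (mem_filter.1 hp).2
      exact_mod_cast (by omega : 3 ≤ p)
    exact div_nonneg (by linarith) (by linarith)
  rw [hquot]
  unfold S
  split_ifs with he
  · have h2T : 2 ∈ T := by
      rw [hT, mem_filter, mem_range]
      exact ⟨by omega, Nat.prime_two⟩
    obtain ⟨T3, hT3⟩ : ∃ T3, T3 = (range (z + 1)).filter (fun p => p.Prime ∧ 2 < p) := ⟨_, rfl⟩
    have hmem : ∀ p, p ∈ T3 ↔ p < z + 1 ∧ p.Prime ∧ 2 < p := by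
      intro p; rw [hT3, mem_filter, mem_range]
    have hsplit : ∀ F : ℕ → ℝ, ∏ p ∈ T, F p = F 2 * ∏ p ∈ T3, F p := by
      intro F
      rw [← mul_prod_erase T F h2T]
      congr 1
      apply prod_congr _ (fun _ _ => rfl)
      ext p
      rw [mem_erase, hT, hmem, mem_filter, mem_range]
      constructor
      · rintro ⟨h1, h2, h3⟩
        have := h3.two_le
        exact ⟨h2, h3, by omega⟩
      · rintro ⟨h1, h2, h3⟩
        exact ⟨by omega, h1, h2⟩
    have hmain : ∏ p ∈ T, (((p : ℝ) - (if p ∣ d then 1 else 2)) * (p / ((p : ℝ) - 1) ^ 2)) =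
        2 * ((∏ p ∈ T3, (1 - 1 / ((p : ℝ) - 1) ^ 2)) *
          ∏ p ∈ T3.filter (fun p => p ∣ d), (((p : ℝ) - 1) / ((p : ℝ) - 2))) := by
      rw [hsplit, prod_filter (s := T3), ← prod_mul_distrib]
      congr 1
      · rw [if_pos he.two_dvd]; norm_num
      · apply prod_congr rfl
        intro p hp
        have h3 : (3 : ℝ) ≤ p := by
          have := ((hmem p).1 hp).2.2
          exact_mod_cast this
        have n0 : (p : ℝ) ≠ 0 := by linarith
        have n1 : (p : ℝ) - 1 ≠ 0 := by intro h; linarith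
        have n2 : (p : ℝ) - 2 ≠ 0 := by intro h; linarith
        by_cases hpd : p ∣ d
        · rw [if_pos hpd, if_pos hpd]
          field_simp
          ring
        · rw [if_neg hpd, if_neg hpd]
          field_simp
          ring
    rw [hmain]
    have hfac : ∏ p ∈ d.primeFactors.filter (fun p : ℕ => 2 < p), (((p : ℝ) - 1) / ((p : ℝ) - 2)) =
        (∏ p ∈ T3.filter (fun p => p ∣ d), (((p : ℝ) - 1) / ((p : ℝ) - 2))) *
          ∏ p ∈ d.primeFactors.filter (fun p => z < p), (((p : ℝ) - 1) / ((p : ℝ) - 2)) := by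
      rw [← prod_union]
      · apply prod_congr _ (fun _ _ => rfl)
        ext p
        rw [mem_union, mem_filter, mem_filter, mem_filter, hmem, Nat.mem_primeFactors]
        constructor
        · rintro ⟨⟨h1, h2, h3⟩, h4⟩
          by_cases h5 : z < p
          · right; exact ⟨⟨h1, h2, h3⟩, h5⟩
          · left; exact ⟨⟨by omega, h1, h4⟩, h2⟩
        · rintro (⟨⟨h1, h2, h3⟩, h4⟩ | ⟨⟨h1, h2, h3⟩, h4⟩)
          · exact ⟨⟨h2, h4, by omega⟩, h3⟩
          · exact ⟨⟨h1, h2, h3⟩, by omega⟩
      · rw [disjoint_left]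
        intro p h1 h2
        rw [mem_filter, hmem] at h1
        rw [mem_filter] at h2
        omega
    rw [hfac]
    have hA : 0 ≤ ∏ p ∈ T3.filter (fun p => p ∣ d), (((p : ℝ) - 1) / ((p : ℝ) - 2)) := by
      apply prod_nonneg
      intro p hp
      have h3 : (3 : ℝ) ≤ p := by
        have := ((hmem p).1 (mem_filter.1 hp).1).2.2
        exact_mod_cast this
      exact div_nonneg (by linarith) (by linarith)
    have hCz := hC z
    rw [← hT3] at hCz
    calc 2 * C2 * ((∏ p ∈ T3.filter (fun p => p ∣ d), (((p : ℝ) - 1) / ((p : ℝ) - 2))) *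
          ∏ p ∈ d.primeFactors.filter (fun p => z < p), (((p : ℝ) - 1) / ((p : ℝ) - 2)))
        = C2 * (2 * ((∏ p ∈ T3.filter (fun p => p ∣ d), (((p : ℝ) - 1) / ((p : ℝ) - 2))) *
          ∏ p ∈ d.primeFactors.filter (fun p => z < p), (((p : ℝ) - 1) / ((p : ℝ) - 2)))) := by ring
      _ ≤ (∏ p ∈ T3, (1 - 1 / ((p : ℝ) - 1) ^ 2)) *
          (2 * ((∏ p ∈ T3.filter (fun p => p ∣ d), (((p : ℝ) - 1) / ((p : ℝ) - 2))) *
          ∏ p ∈ d.primeFactors.filter (fun p => z < p), (((p : ℝ) - 1) / ((p : ℝ) - 2)))) := by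
          apply mul_le_mul_of_nonneg_right hCz
          positivity
      _ = _ := by ring
  · apply mul_nonneg _ htail
    apply prod_nonneg
    intro p hp
    have h2 : (2 : ℝ) ≤ p := by exact_mod_cast (hTp p hp).two_le
    apply mul_nonneg
    · split_ifs <;> linarith
    · positivity

end Pool.Agent.L7h54.AS
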